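import Pool.Agent.H5.EG.Spec2

/-!
# The main estimate at one scale
-/

set_option autoImplicit false

namespace Pool.Agent.H803.EG

open PowerSeries
open Pool.Agent.H5.EG

theorem rad_zero : Rad 0 := by
  intro ρ _ _
  simp

theorem rad_neg {a : PowerSeries ℂ} (ha : Rad a) : Rad (-a) := by
  intro ρ h0 h1
  refine (ha ρ h0 h1).congr fun n => ?_
  simp

theorem ev_zero {x : ℂ} : ev 0 x = 0 := by
  simp [ev]

/-- The subring of the convergent power series. -/
def RS : Subring (PowerSeries ℂ) where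
  carrier := {h | Rad h}
  mul_mem' := fun ha hb => Rad.mul ha hb
  one_mem' := Rad.one
  add_mem' := fun ha hb => Rad.add ha hb
  zero_mem' := rad_zero
  neg_mem' := fun ha => rad_neg ha

/-- The value at a point of the disc, as a homomorphism. -/
noncomputable def evH (x : ℂ) (hx : ‖x‖ < 1) : RS →+* ℂ where
  toFun h := ev h x
  map_one' := ev_one
  map_mul' a b := ev_mul a.2 b.2 hx
  map_zero' := ev_zero
  map_add' a b := ev_add a.2 b.2 hx

theorem rad_sum {ι : Type} (s : Finset ι) (f : ι → PowerSeries ℂ) (hf : ∀ i ∈ s, Rad (f i)) :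
    Rad (∑ i ∈ s, f i) := RS.sum_mem hf

theorem ev_sum {ι : Type} (s : Finset ι) (f : ι → PowerSeries ℂ) (hf : ∀ i ∈ s, Rad (f i))
    {x : ℂ} (hx : ‖x‖ < 1) : ev (∑ i ∈ s, f i) x = ∑ i ∈ s, ev (f i) x := by
  classical
  induction s using Finset.induction_on with
  | empty => simp [ev_zero]
  | insert a s ha ih =>
    rw [Finset.sum_insert ha, Finset.sum_insert ha, ev_add (hf a (Finset.mem_insert_self _ _))
      (rad_sum s f fun i hi => hf i (Finset.mem_insert_of_mem hi)) hx,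
      ih fun i hi => hf i (Finset.mem_insert_of_mem hi)]

theorem det_rad {b : ℕ} (A : Matrix (Fin b) (Fin b) (PowerSeries ℂ))
    (hA : ∀ i j, Rad (A i j)) : Rad A.det ∧ ∀ x : ℂ, ‖x‖ < 1 →
      ev A.det x = (Matrix.of fun i j => ev (A i j) x).det := by
  let A' : Matrix (Fin b) (Fin b) RS := Matrix.of fun i j => ⟨A i j, hA i j⟩
  have h1 : A.det = ((A'.det : RS) : PowerSeries ℂ) := by
    have h2 := RingHom.map_det RS.subtype A'
    rw [RingHom.mapMatrix_apply] at h2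
    exact h2.symm
  refine ⟨?_, fun x hx => ?_⟩
  · rw [h1]
    exact A'.det.2
  · have h2 := RingHom.map_det (evH x hx) A'
    rw [RingHom.mapMatrix_apply] at h2
    have h3 : evH x hx A'.det = ev A.det x := by
      rw [h1]
      rfl
    rw [← h3, h2]
    rfl

/-- bound for a determinant -/
theorem det_bound {b : ℕ} (A : Matrix (Fin b) (Fin b) ℂ) (y : ℝ) (hA : ∀ i j, ‖A i j‖ ≤ y) :
    ‖A.det‖ ≤ b.factorial * y ^ b := by
  have h := Matrix.det_le (A := A) (abv := NormedField.toAbsoluteValue ℂ) (x := y) hA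
  rw [Fintype.card_fin, nsmul_eq_mul] at h
  exact h

theorem D_iter_add {R : Type} [CommRing R] (a b : PowerSeries R) (l : ℕ) :
    D^[l] (a + b) = D^[l] a + D^[l] b := by
  ext n
  rw [map_add, coeff_D_iter, coeff_D_iter, coeff_D_iter, map_add, mul_add]

theorem D_iter_sum {R : Type} [CommRing R] {ι : Type} (s : Finset ι) (f : ι → PowerSeries R)
    (l : ℕ) : D^[l] (∑ i ∈ s, f i) = ∑ i ∈ s, D^[l] (f i) := by
  ext n
  rw [coeff_D_iter, map_sum, map_sum, Finset.mul_sum]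
  exact Finset.sum_congr rfl fun i _ => (coeff_D_iter _ _ _).symm

theorem D_iter_C_mul {R : Type} [CommRing R] (c : R) (a : PowerSeries R) (l : ℕ) :
    D^[l] (C c * a) = C c * D^[l] a := by
  ext n
  rw [coeff_D_iter, coeff_C_mul, coeff_C_mul, coeff_D_iter]
  ring

theorem rad_D_iter {a : PowerSeries ℂ} (ha : Rad a) (l : ℕ) : Rad (D^[l] a) := by
  induction l with
  | zero => exact ha
  | succ l ih =>
    rw [Function.iterate_succ_apply']
    exact ih.D

theorem coeff_zero_f (F : Fn) : cf F.f 0 = 1 := by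
  have h := F.f0
  rw [← coeff_zero_eq_constantCoeff_apply] at h
  rw [cf, h]
  simp

/-- the numerical constants -/
theorem numA (B κ Λ X : ℕ) (hΛ : 60 * B + (12 * B.factorial + 8 + 2 * B + 12 * B * (κ + 1)) ≤ Λ)
    (b : ℕ) (hb : 1 ≤ b) (hbB : b ≤ B) (hX : 3 ≤ X) :
    12 * Real.log (B.factorial * ((X : ℝ) ^ (5 * Λ + κ + 1)) ^ B) + 8 + 2 * Real.log b ≤
      (Λ : ℝ) ^ 2 * Real.log ((X : ℝ) ^ 2) := by
  have hX3 : (3 : ℝ) ≤ X := by exact_mod_cast hX
  have hX0 : (0 : ℝ) < X := by linarith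
  have hlX : 1 ≤ Real.log X := by
    rw [Real.le_log_iff_exp_le hX0]
    linarith [Real.exp_one_lt_d9]
  have hf0 : (0 : ℝ) < B.factorial := by exact_mod_cast B.factorial_pos
  have hlf : Real.log B.factorial ≤ B.factorial := by
    have := Real.log_le_sub_one_of_pos hf0
    linarith
  have hb0 : (0 : ℝ) < b := by exact_mod_cast hb
  have hlb : Real.log b ≤ B := by
    have h1 := Real.log_le_sub_one_of_pos hb0
    have h2 : (b : ℝ) ≤ B := by exact_mod_cast hbB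
    linarith
  rw [Real.log_mul hf0.ne' (by positivity), Real.log_pow, Real.log_pow, Real.log_pow]
  push_cast
  have hΛ' : (60 : ℝ) * B + (12 * B.factorial + 8 + 2 * B + 12 * B * (κ + 1)) ≤ Λ := by
    exact_mod_cast hΛ
  have hΛ1 : (1 : ℝ) ≤ Λ := by
    have : (0 : ℝ) ≤ (60 : ℝ) * B + (12 * B.factorial + 2 * B + 12 * B * (κ + 1)) := by positivity
    linarith
  have hB0 : (0 : ℝ) ≤ B := by positivity
  have hκ0 : (0 : ℝ) ≤ κ := by positivity
  set C0 : ℝ := 12 * B.factorial + 8 + 2 * B + 12 * B * (κ + 1) with hC0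
  have hC0' : 0 ≤ C0 := by positivity
  have h2 : 12 * (Real.log B.factorial + B * ((5 * Λ + κ + 1) * Real.log X)) + 8 +
      2 * Real.log b ≤ (12 * B.factorial + 8 + 2 * B) * Real.log X +
        12 * B * (5 * Λ + κ + 1) * Real.log X := by
    nlinarith [mul_nonneg hf0.le (sub_nonneg.2 hlX), mul_nonneg hB0 (sub_nonneg.2 hlX)]
  have h3 : (12 * B.factorial + 8 + 2 * B : ℝ) + 12 * B * (5 * Λ + κ + 1) ≤ Λ ^ 2 * 2 := by
    have h4 : (60 * B + C0) * Λ ≤ Λ * Λ :=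
      mul_le_mul_of_nonneg_right (by rw [hC0]; linarith) (by linarith)
    have h5 : C0 * 1 ≤ C0 * Λ := mul_le_mul_of_nonneg_left hΛ1 hC0'
    have h6 : (12 * B.factorial + 8 + 2 * B : ℝ) + 12 * B * (5 * Λ + κ + 1) = 60 * B * Λ + C0 := by
      rw [hC0]; ring
    rw [h6]
    nlinarith [sq_nonneg (Λ : ℝ)]
  nlinarith [mul_le_mul_of_nonneg_right h3 (by linarith : (0 : ℝ) ≤ Real.log X)]

/-- the identity behind the rule of Cramer -/
theorem cramer_id {b : ℕ} (A : Matrix (Fin b) (Fin b) ℂ) (y w : Fin b → ℂ)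
    (h : ∀ l, w l = ∑ i, y i * A i l) (i : Fin b) : y i * A.det = (A.updateRow i w).det := by
  have h1 : w = ∑ k, y k • A k := by
    funext l
    rw [h l, Finset.sum_apply]
    rfl
  rw [h1, Matrix.det_updateRow_sum, smul_eq_mul]

theorem err_bound (B b X : ℕ) (hbB : b ≤ B) (hX : 1 ≤ X) :
    Real.exp (8 * (X : ℝ) ^ 3) +
      b * ((b.factorial * Real.exp (5 * (X : ℝ) ^ 2) ^ b) * Real.exp (8 * (X : ℝ) ^ 3)) ≤
      Real.exp ((1 + B * B.factorial + 5 * B + 8 : ℕ) * (X : ℝ) ^ 3) := by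
  have hX1 : (1 : ℝ) ≤ X := by exact_mod_cast hX
  have he1 : 1 ≤ Real.exp (5 * (X : ℝ) ^ 2) := Real.one_le_exp (by positivity)
  have h1 : (b : ℝ) * (b.factorial * Real.exp (5 * (X : ℝ) ^ 2) ^ b) ≤
      B * (B.factorial * Real.exp (5 * (X : ℝ) ^ 2) ^ B) := by
    have h2 : (b : ℝ) ≤ B := by exact_mod_cast hbB
    have h3 : (b.factorial : ℝ) ≤ B.factorial := by exact_mod_cast Nat.factorial_le hbB
    have h4 : Real.exp (5 * (X : ℝ) ^ 2) ^ b ≤ Real.exp (5 * (X : ℝ) ^ 2) ^ B :=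
      pow_le_pow_right₀ he1 hbB
    gcongr
  have h5 : (1 : ℝ) ≤ Real.exp (5 * (X : ℝ) ^ 2) ^ B := one_le_pow₀ he1
  have h6 : (1 : ℝ) + B * B.factorial ≤ Real.exp (1 + B * B.factorial) := by
    have := Real.add_one_le_exp ((1 : ℝ) + B * B.factorial)
    linarith
  calc _ = Real.exp (8 * (X : ℝ) ^ 3) *
        (1 + b * (b.factorial * Real.exp (5 * (X : ℝ) ^ 2) ^ b)) := by ring
    _ ≤ Real.exp (8 * (X : ℝ) ^ 3) *
        (1 * Real.exp (5 * (X : ℝ) ^ 2) ^ B + B * (B.factorial * Real.exp (5 * (X : ℝ) ^ 2) ^ B)) := by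
        gcongr
        linarith
    _ = Real.exp (8 * (X : ℝ) ^ 3) * ((1 + B * B.factorial) * Real.exp (5 * (X : ℝ) ^ 2) ^ B) := by
        ring
    _ ≤ Real.exp (8 * (X : ℝ) ^ 3) * (Real.exp (1 + B * B.factorial) *
        Real.exp (5 * (X : ℝ) ^ 2) ^ B) := by gcongr
    _ = Real.exp (8 * (X : ℝ) ^ 3 + ((1 + B * B.factorial) + B * (5 * (X : ℝ) ^ 2))) := by
        rw [← Real.exp_nat_mul, ← Real.exp_add, ← Real.exp_add]
    _ ≤ _ := by
        apply Real.exp_le_exp.2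
        push_cast
        have h7 : (1 : ℝ) ≤ (X : ℝ) ^ 3 := one_le_pow₀ hX1
        have h8 : (X : ℝ) ^ 2 ≤ (X : ℝ) ^ 3 := pow_le_pow_right₀ hX1 (by norm_num)
        have h9 : (0 : ℝ) ≤ 1 + B * B.factorial := by positivity
        have h10 : (0 : ℝ) ≤ 5 * B := by positivity
        nlinarith [mul_le_mul_of_nonneg_left h7 h9, mul_le_mul_of_nonneg_left h8 h10]

theorem core (h1 : S_core1) (h2 : S_core2) (h3 : S_tiny) (h4 : S_Wsup) (h5 : S_jensen)
    (h6 : S_cartan) (h7 : S_exp) (h8 : S_fourier) : S_core := by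
  classical
  intro B K
  obtain ⟨Λ₁, κ, h2'⟩ := h2 B K
  obtain ⟨X₀, h3'⟩ := h3 (1 + B * B.factorial + 5 * B + 8) B
  obtain ⟨Λ₂, h4'⟩ := h4 B
  refine ⟨Λ₁ + X₀ + Λ₂ + (60 * B + (12 * B.factorial + 8 + 2 * B + 12 * B * (κ + 1))) + 3 +
    2 * B, ?_⟩
  intro Λ hΛ b F W c X S hb1 hbB hW0 hG hX hS1 hS2 hc hrep hind hmn i₀
  have hΛX : Λ ≤ X := (Nat.le_self_pow (by norm_num) Λ).trans hX
  have hX3 : 3 ≤ X := by omega
  have hXR : (3 : ℝ) ≤ X := by exact_mod_cast hX3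
  have hX1 : (1 : ℝ) ≤ X := by linarith
  have hXX6 : X ≤ X ^ 6 := Nat.le_self_pow (by norm_num) X
  obtain ⟨hFb, hWb⟩ := h2' Λ (by omega) X S hX hS1 hS2
  have hWb' := hWb W hG
  obtain ⟨ν, M, hν, hM, hz, hMν, hcr⟩ := h1 b X F hind
  have hcr' := hcr W c (Real.exp (5 * (X : ℝ) ^ 2)) (Real.one_le_exp (by positivity))
    (fun k hk => hrep k (hk.trans_le hXX6)) (fun i k hk => (hFb (F i) (hmn i)).1 k hk) hWb'.1
  set ρ : ℝ := 1 - 1 / (X : ℝ) ^ 2 with hρ
  have hX2 : (9 : ℝ) ≤ (X : ℝ) ^ 2 := by nlinarith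
  have hinv : 1 / (X : ℝ) ^ 2 ≤ 1 / 9 := one_div_le_one_div_of_le (by norm_num) hX2
  have hinv0 : 0 < 1 / (X : ℝ) ^ 2 := by positivity
  have hρ0 : 0 < ρ := by rw [hρ]; linarith
  have hρ1 : ρ < 1 := by rw [hρ]; linarith
  -- the determinant
  let Gm : Matrix (Fin b) (Fin b) (PowerSeries ℂ) :=
    Matrix.of fun i l => G (toC (gg (F i).s)) (l : ℕ)
  have hGR : ∀ i l, Rad (Gm i l) := fun i l =>
    ((hFb (F i) (hmn i)).2.2 (l : ℕ) (by have := l.2; omega)).1
  have hGb : ∀ i l x, ‖x‖ ≤ ρ → ‖ev (Gm i l) x‖ ≤ (X : ℝ) ^ κ := fun i l x hx =>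
    ((hFb (F i) (hmn i)).2.2 (l : ℕ) (by have := l.2; omega)).2 x hx
  have hDl : toC (Dl F) = Gm.det := by
    unfold Dl toC
    rw [RingHom.map_det, RingHom.mapMatrix_apply]
    refine congrArg Matrix.det (Matrix.ext fun i l => ?_)
    exact toC_G _ _
  obtain ⟨hDR, hDev⟩ := det_rad Gm hGR
  rw [← hDl] at hDR hDev
  -- the error
  have hfR : ∀ i, Rad (toC (F i).f) := fun i => (h7 (F i)).1
  let E : PowerSeries ℂ := toC W - ∑ i, C (c i) * toC (F i).f
  have hsR : Rad (∑ i, C (c i) * toC (F i).f) := rad_sum _ _ fun i _ => (hfR i).C_mul _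
  have hER : Rad E := RS.sub_mem hG.1 hsR
  have hEc : ∀ k, coeff k E = cf W k - ∑ i, c i * cf (F i).f k := by
    intro k
    simp only [E, map_sub, map_sum, coeff_C_mul, coeff_toC, cf]
  have hE0 : ∀ k < X ^ 6, coeff k E = 0 := by
    intro k hk
    rw [hEc, hrep k hk, sub_self]
  have hR0 : (0 : ℝ) ≤ 1 - 1 / (2 * (X : ℝ) ^ 2) := by
    have : 1 / (2 * (X : ℝ) ^ 2) ≤ 1 / 9 :=
      one_div_le_one_div_of_le (by norm_num) (by linarith)
    linarith
  have hEb : ∀ n : ℕ, ‖coeff n E‖ * (1 - 1 / (2 * (X : ℝ) ^ 2)) ^ n ≤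
      Real.exp ((1 + B * B.factorial + 5 * B + 8 : ℕ) * (X : ℝ) ^ 3) := by
    intro n
    refine le_trans ?_ (err_bound B b X hbB (by omega))
    rw [hEc]
    calc _ ≤ (‖cf W n‖ + ∑ i, ‖c i‖ * ‖cf (F i).f n‖) * (1 - 1 / (2 * (X : ℝ) ^ 2)) ^ n := by
          gcongr
          refine (norm_sub_le _ _).trans (add_le_add le_rfl ((norm_sum_le _ _).trans ?_))
          exact Finset.sum_le_sum fun i _ => (norm_mul _ _).le
      _ = ‖cf W n‖ * (1 - 1 / (2 * (X : ℝ) ^ 2)) ^ n +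
          ∑ i, ‖c i‖ * (‖cf (F i).f n‖ * (1 - 1 / (2 * (X : ℝ) ^ 2)) ^ n) := by
          rw [add_mul, Finset.sum_mul]
          congr 1
          exact Finset.sum_congr rfl fun i _ => by ring
      _ ≤ Real.exp (8 * (X : ℝ) ^ 3) + ∑ _i : Fin b,
          (b.factorial * Real.exp (5 * (X : ℝ) ^ 2) ^ b) * Real.exp (8 * (X : ℝ) ^ 3) := by
          refine add_le_add (hWb'.2 n) (Finset.sum_le_sum fun i _ => ?_)
          exact mul_le_mul (hcr' i).2 ((hFb (F i) (hmn i)).2.1 n) (by positivity) (by positivity)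
      _ = _ := by
          rw [Finset.sum_const, Finset.card_univ, Fintype.card_fin, nsmul_eq_mul]
  have hE1 := h3' X (by omega) E hE0 hEb
  have hW1 := h4' Λ (by omega) W X (by omega) hG
  -- the linear system
  have hDf : ∀ (i : Fin b) (l : ℕ), D^[l] (toC (F i).f) = G (toC (gg (F i).s)) l * toC (F i).f := by
    intro i l
    apply D_iter_eq
    rw [← toC_D, (F i).eq, toC_mul]
  have hsys : ∀ (l : Fin b) (x : ℂ), ‖x‖ ≤ ρ →
      ev (D^[(l : ℕ)] (toC W)) x - ev (D^[(l : ℕ)] E) x =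
        ∑ i, (c i * ev (toC (F i).f) x) * ev (Gm i l) x := by
    intro l x hx
    have hx1 : ‖x‖ < 1 := hx.trans_lt hρ1
    have hWE : toC W = E + ∑ i, C (c i) * toC (F i).f := by
      simp only [E]
      ring
    have e1 : D^[(l : ℕ)] (toC W) = D^[(l : ℕ)] E + ∑ i, C (c i) * (Gm i l * toC (F i).f) := by
      conv_lhs => rw [hWE]
      rw [D_iter_add, D_iter_sum]
      congr 1
      refine Finset.sum_congr rfl fun i _ => ?_
      rw [D_iter_C_mul, hDf]
      rfl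
    have hr : ∀ i ∈ (Finset.univ : Finset (Fin b)), Rad (C (c i) * (Gm i l * toC (F i).f)) :=
      fun i _ => ((hGR i l).mul (hfR i)).C_mul _
    rw [e1, ev_add (rad_D_iter hER _) (rad_sum _ _ hr) hx1, ev_sum _ _ hr hx1, add_sub_cancel_left]
    refine Finset.sum_congr rfl fun i _ => ?_
    rw [ev_C_mul, ev_mul (hGR i l) (hfR i) hx1]
    ring
  -- bounds
  set y : ℝ := (X : ℝ) ^ (5 * Λ + κ + 1) with hy
  have hy1 : 1 ≤ y := one_le_pow₀ hX1
  have hyG : (X : ℝ) ^ κ ≤ y := pow_le_pow_right₀ hX1 (by omega)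
  have hyW : (X : ℝ) ^ (5 * Λ) + 1 ≤ y := by
    have e1 : (1 : ℝ) ≤ (X : ℝ) ^ (5 * Λ) := one_le_pow₀ hX1
    have e2 : (X : ℝ) ^ (5 * Λ + 1) ≤ y := pow_le_pow_right₀ hX1 (by omega)
    rw [pow_succ] at e2
    nlinarith
  set P : ℝ := B.factorial * y ^ B with hP
  have hbf : (b.factorial : ℝ) * y ^ b ≤ P := by
    have e1 : (b.factorial : ℝ) ≤ B.factorial := by exact_mod_cast Nat.factorial_le hbB
    have e2 : y ^ b ≤ y ^ B := pow_le_pow_right₀ hy1 hbB
    rw [hP]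
    gcongr
  have hP1 : 1 ≤ P := by
    have e1 : (1 : ℝ) ≤ B.factorial := by exact_mod_cast B.factorial_pos
    have e2 : (1 : ℝ) ≤ y ^ B := one_le_pow₀ hy1
    rw [hP]
    nlinarith
  have hDbound : ∀ x : ℂ, ‖x‖ = ρ → ‖ev (toC (Dl F)) x‖ ≤ P := by
    intro x hx
    rw [hDev x (by rw [hx]; exact hρ1)]
    refine (det_bound _ y fun i l => ?_).trans hbf
    exact (hGb i l x hx.le).trans hyG
  have hcbound : ∀ (i : Fin b) (x : ℂ), ‖x‖ = ρ →
      ‖c i‖ * Real.exp (ev (phi (F i).s) x).re * ‖ev (toC (Dl F)) x‖ ≤ P := by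
    intro i x hx
    have hx1 : ‖x‖ < 1 := by rw [hx]; exact hρ1
    have e1 : ‖c i‖ * Real.exp (ev (phi (F i).s) x).re * ‖ev (toC (Dl F)) x‖ =
        ‖(c i * ev (toC (F i).f) x) * (Matrix.of fun i j => ev (Gm i j) x).det‖ := by
      rw [hDev x hx1, (h7 (F i)).2.2 x hx1, norm_mul, norm_mul, Complex.norm_exp]
    have e2 : (c i * ev (toC (F i).f) x) * (Matrix.of fun i j => ev (Gm i j) x).det =
        ((Matrix.of fun i j => ev (Gm i j) x).updateRow i
          (fun l : Fin b => ev (D^[(l : ℕ)] (toC W)) x - ev (D^[(l : ℕ)] E) x)).det :=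
      cramer_id (Matrix.of fun i j => ev (Gm i j) x) (fun i => c i * ev (toC (F i).f) x)
        (fun l : Fin b => ev (D^[(l : ℕ)] (toC W)) x - ev (D^[(l : ℕ)] E) x)
        (fun l => hsys l x hx.le) i
    rw [e1, e2]
    refine (det_bound _ y fun j l => ?_).trans hbf
    have hl : (l : ℕ) ≤ B := by have := l.2; omega
    rw [Matrix.updateRow_apply]
    split_ifs with hji
    · refine (norm_sub_le _ _).trans (le_trans ?_ hyW)
      exact add_le_add (hW1 l hl x hx.le) (hE1 l hl x hx.le)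
    · exact (hGb j l x hx.le).trans hyG
  -- Jensen
  have hcoefν : ‖coeff ν (toC (Dl F))‖ = |((coeff ν (Dl F) : ℤ) : ℝ)| := by
    rw [coeff_toC, Complex.norm_intCast]
  have hne : coeff ν (toC (Dl F)) ≠ 0 := by
    intro h0
    rw [h0, norm_zero] at hcoefν
    rw [← hcoefν] at hMν
    linarith
  obtain ⟨hJ1, hJ2, hJ3⟩ := h5 (toC (Dl F)) ρ ν hDR hρ0 hρ1
    (fun k hk => by rw [coeff_toC, hz k hk, Int.cast_zero]) hne
  have hJ4 : Real.log M - 1 ≤ Real.circleAverage (fun x => Real.log ‖ev (toC (Dl F)) x‖) 0 ρ := by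
    refine le_trans ?_ hJ2
    have e1 : Real.log M ≤ Real.log ‖coeff ν (toC (Dl F))‖ := by
      rw [hcoefν]
      exact Real.log_le_log (by linarith) hMν
    have e2 : 1 - ρ⁻¹ ≤ Real.log ρ := Real.one_sub_inv_le_log_of_pos hρ0
    have e3 : -(2 / (X : ℝ) ^ 2) ≤ 1 - ρ⁻¹ := by
      have e4 : ρ⁻¹ ≤ 1 + 2 / (X : ℝ) ^ 2 := by
        rw [inv_le_comm₀ hρ0 (by positivity), ← one_div, div_le_iff₀ (by positivity), hρ]
        have e5 : 2 / (X : ℝ) ^ 2 = 2 * (1 / (X : ℝ) ^ 2) := by ring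
        rw [e5]
        nlinarith
      linarith
    have e6 : -1 ≤ (ν : ℝ) * Real.log ρ := by
      have e7 : (ν : ℝ) ≤ B * X := by
        have : ν ≤ B * X := hν.trans (Nat.mul_le_mul_right X hbB)
        exact_mod_cast this
      have e8 : (ν : ℝ) * -(2 / (X : ℝ) ^ 2) ≤ (ν : ℝ) * Real.log ρ :=
        mul_le_mul_of_nonneg_left (e3.trans e2) (by positivity)
      have e9 : (2 * B : ℝ) ≤ X := by
        have : 2 * B ≤ X := by omega
        exact_mod_cast this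
      have e10 : (ν : ℝ) * (2 / (X : ℝ) ^ 2) ≤ 1 := by
        rw [mul_div_assoc', div_le_one (by positivity)]
        nlinarith
      linarith
    linarith
  -- the sum of the coefficients
  have hsum : ∑ i, c i = 1 := by
    have e1 := hrep 0 (by positivity)
    have e2 : cf W 0 = 1 := by
      rw [cf, coeff_zero_eq_constantCoeff_apply, hW0]
      simp
    rw [e2] at e1
    rw [e1]
    exact Finset.sum_congr rfl fun i _ => by rw [coeff_zero_f, mul_one]
  have hfin := h6 b ρ (fun i x => (ev (phi (F i).s) x).re) c (fun x => ev (toC (Dl F)) x) P P M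
    hρ0 hP1 hP1 hM hc (fun i => (hcr' i).1 (hc i)) hsum ?_ ?_ hJ1 hJ4 hJ3 hcbound hDbound i₀
  · refine hfin.trans (le_trans (le_of_eq ?_) (numA B κ Λ X (by omega) b hb1 hbB hX3))
    ring
  · intro i
    refine Complex.continuous_re.comp_continuousOn ?_
    refine (ev_analytic (h7 (F i)).2.1).continuousOn.mono ?_
    intro x hx
    rw [mem_sphere_zero_iff_norm] at hx
    rw [mem_ball_zero_iff, hx]
    exact hρ1
  · intro i
    have e1 := (h8 (phi (F i).s) ρ (h7 (F i)).2.1 hρ0 hρ1).2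
    refine e1.trans ?_
    simp [phi]

end Pool.Agent.H803.EG
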